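import Mathlib
import Pool.Agent.Q183.Thick.Hardy

set_option autoImplicit false

/-!
# Return-time sets along Hardy field functions: a non-thick intersection

For every irrational `α` the functions `f₁(t) = t^(3/2)` and `f₂(t) = α t^(3/2) + t` belong to a Hardy field and satisfy
the hypothesis on `S(f₁, f₂)`, but `R_{f₁}(E) ∩ R_{f₂}(E)` is not thick for some `E` of positive upper density.
-/

namespace Pool.Agent.Results.MP_121ecb_an.HardyCounterexample

open Filter Topology Pool.Agent.Q183.Thick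

/-- For every irrational `α` there is a Hardy field `H` containing the germs of `f₁(t) = t^(3/2)` and
`f₂(t) = α t^(3/2) + t` such that `|c₁ f₁^(m₁) + c₂ f₂^(m₂)|` tends to `0` or to `∞` for all integers `c₁, c₂` and all
`m₁, m₂ ≥ 0`, and there is a set `E ⊆ {1, 2, …}` of positive upper density such that the lengths of the intervals of
consecutive integers contained in `R_{f₁}(E) ∩ R_{f₂}(E)` are bounded. -/
theorem result (α : ℝ) (hα : Irrational α) :
    ∃ (H : Set (Germ (atTop : Filter ℝ) ℝ)) (f₁ f₂ : ℝ → ℝ), IsHardyField H ∧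
      f₁ = (fun t => t ^ (3 / 2 : ℝ)) ∧ f₂ = (fun t => α * t ^ (3 / 2 : ℝ) + t) ∧
      (f₁ : Germ (atTop : Filter ℝ) ℝ) ∈ H ∧ (f₂ : Germ (atTop : Filter ℝ) ℝ) ∈ H ∧
      (∀ (c₁ c₂ : ℤ) (m₁ m₂ : ℕ),
        Tendsto (fun t => |(c₁ : ℝ) * iteratedDeriv m₁ f₁ t + c₂ * iteratedDeriv m₂ f₂ t|) atTop (𝓝 0) ∨
        Tendsto (fun t => |(c₁ : ℝ) * iteratedDeriv m₁ f₁ t + c₂ * iteratedDeriv m₂ f₂ t|) atTop atTop) ∧
      ∃ E : Set ℕ, (∀ m ∈ E, 1 ≤ m) ∧ 0 < upperDensity E ∧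
        ∃ L : ℕ, ∀ a : ℕ, ∃ i ≤ L, a + i ∉ R f₁ E ∩ R f₂ E := by
  refine ⟨HH, g, g2 α, isHardyField_HH, rfl, rfl, g_mem, g2_mem α, combos hα, ?_⟩
  obtain ⟨ε, hε, h⟩ := not_thick hα
  refine ⟨bohr α ε, fun m hm => hm.1, bohr_density α hε, ?_⟩
  unfold Thick at h
  push Not at h
  exact h

end Pool.Agent.Results.MP_121ecb_an.HardyCounterexample
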